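import Mathlib
import Pool.Agent.Lib.MP_58ead2_co.GLat
import Pool.Agent.Lib.MP_58ead2_co.GAch
import Pool.Agent.Lib.MP_58ead2_co.GAsym

open Pool.Agent.Lib.MP_58ead2_co.G

/-- If `(b+1)^2 m^m < (m+b)^m` (for instance `m = b = 6`), then in the `(m:b)` achievement game
on parallelogram lattices (`par = true`) and on area-one lattices (`par = false`) Maker beats the
conjectured value `2 √(log_c N)`, resp. `√(2 log_c N)`, `c = (m+b)/m`, by a constant factor. -/
theorem Pool.Agent.Results.MP_58ead2_co.AchievementFails.result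
    (m b : ℕ) (h : (b + 1) ^ 2 * m ^ m < (m + b) ^ m) (par : Bool) :
    ∃ δ : ℝ, 0 < δ ∧ ∀ᶠ N : ℕ in Filter.atTop,
      (1 + δ) * conj par (((m : ℝ) + b) / m) N ≤ (achieve par N m b : ℝ) :=
  achieve_main m b h par
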