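import Mathlib
import Pool.Agent.Lib.MP_58ead2_co.GLat
import Pool.Agent.Lib.MP_58ead2_co.GAvd
import Pool.Agent.Lib.MP_58ead2_co.GAsym

open Pool.Agent.Lib.MP_58ead2_co.G

/-- If `64 ≤ f ≤ a`, then in the `(a:f)` avoidance game on parallelogram lattices (`par = true`)
and on area-one lattices (`par = false`), whoever moves first (Avoider iff `t = true`), Forcer
beats the conjectured value `2 √(log_c N)`, resp. `√(2 log_c N)`, `c = (a+f)/a`, by a constant
factor. -/
theorem Pool.Agent.Results.MP_58ead2_co.AvoidanceFails.result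
    (a f : ℕ) (hf : 64 ≤ f) (hfa : f ≤ a) (par t : Bool) :
    ∃ δ : ℝ, 0 < δ ∧ ∀ᶠ N : ℕ in Filter.atTop,
      (1 + δ) * conj par (((a : ℝ) + f) / a) N ≤ (avoid par t N a f : ℝ) :=
  avoid_main a f hf hfa par t
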