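import Mathlib
import Pool.Agent.Lib.MP_58ead2_co.Defs
import Pool.Agent.Lib.MP_58ead2_co.Main

namespace Pool.Agent.Results.MP_58ead2_co.ParallelogramTwoOne

open Pool.Agent.Lib.MP_58ead2_co

/-- For `m = 2`, `b = 1` (so `c = 3/2`, `c₀ = 2`) and the class of parallelogram lattices, no
`ε(N) → 0` gives `A(N; X; 2:1) = ⌊2 √(log_c N + 2 log_{c₀} N) + ε(N)⌋` for all large `N`. -/
theorem result : ¬ ∃ ε : ℕ → ℝ, Filter.Tendsto ε Filter.atTop (nhds 0) ∧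
    ∀ᶠ N : ℕ in Filter.atTop, (achievementNumber N 2 1 : ℤ) =
      ⌊2 * √(Real.logb (3 / 2) N + 2 * Real.logb 2 N) + ε N⌋ :=
  main

end Pool.Agent.Results.MP_58ead2_co.ParallelogramTwoOne
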